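import Mathlib
import Pool.Agent.W560.NR.Basic

set_option autoImplicit false

/-!
MP_c3d375_an: `W(C₁, C₂)` is convex for every closed convex `C₁` if `C₂` is a closed disc or a closed convex
set containing a line; for all closed convex `C₁, C₂` it is star-shaped about every point of `C₂`.
-/

namespace Pool.Agent.Results.MP_c3d375_an.DiscOrLine

/-- The union of the numerical ranges of the operators `A = f(T)`, over all Hilbert space operators `T` whose
numerical range is contained in `C₁` and all `f` holomorphic near `C₁` with `f(C₁) ⊆ C₂` (the set in the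
frozen statement of the problem). -/
def W (C₁ C₂ : Set ℂ) : Set ℂ :=
  {w : ℂ | ∃ (H : Type) (_ : NormedAddCommGroup H)
          (_ : InnerProductSpace ℂ H) (_ : CompleteSpace H)
          (T : H →L[ℂ] H) (f : ℂ → ℂ) (A : H →L[ℂ] H) (V : Set ℂ),
        (∀ x : H, ‖x‖ = 1 → inner ℂ x (T x) ∈ C₁) ∧
        IsOpen V ∧ C₁ ⊆ V ∧ DifferentiableOn ℂ f V ∧ f '' C₁ ⊆ C₂ ∧
        (∃ (p : ℕ → Polynomial ℂ) (U : Set ℂ), IsOpen U ∧ spectrum ℂ T ⊆ U ∧
          TendstoUniformlyOn (fun n z => (p n).eval z) f Filter.atTop U ∧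
          Filter.Tendsto (fun n => Polynomial.aeval T (p n)) Filter.atTop (nhds A)) ∧
        ∃ x : H, ‖x‖ = 1 ∧ inner ℂ x (A x) = w}

/-- For closed convex `C₁, C₂`: `W(C₁, C₂)` is star-shaped about every point of `C₂`; and it is convex if `C₂`
is a closed disc (of any centre and radius) or if `C₂` is invariant under all translations in some direction
`v ≠ 0` (lines, strips, half-planes, the plane). -/
theorem result (C₁ C₂ : Set ℂ) (_h₁ : IsClosed C₁) (_hc₁ : Convex ℝ C₁) (_h₂ : IsClosed C₂)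
    (hc₂ : Convex ℝ C₂) :
    (∀ c ∈ C₂, StarConvex ℝ c (W C₁ C₂)) ∧
    ((∃ (c : ℂ) (r : ℝ), C₂ = Metric.closedBall c r) ∨
      (∃ v : ℂ, v ≠ 0 ∧ ∀ z ∈ C₂, ∀ t : ℝ, z + (t : ℂ) * v ∈ C₂) → Convex ℝ (W C₁ C₂)) := by
  refine ⟨?_, ?_⟩
  · intro c hc w hw a b ha hb hab
    have h := Pool.Agent.W560.NR.W_star (C₁ := C₁) hc₂ hc hw hb (by linarith : b ≤ 1)
    have e : c + (b : ℂ) * (w - c) = a • c + b • w := by
      have : (a : ℂ) + b = 1 := by exact_mod_cast hab
      simp only [Complex.real_smul]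
      linear_combination (-c) * this
    rw [e] at h
    exact h
  · rintro (⟨c, r, rfl⟩ | ⟨v, hv, h⟩)
    · exact Pool.Agent.W560.NR.W_convex_disc C₁ c r
    · exact Pool.Agent.W560.NR.W_convex_line C₁ C₂ hc₂ v hv h

end Pool.Agent.Results.MP_c3d375_an.DiscOrLine
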